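import Pool.Agent.Work.MP_76d3fb_an.C.Final
import Pool.Agent.Work.MP_76d3fb_an.Stmt

/-! Weak fpp for left reversible semigroups for subspaces of C*-algebras with a finite composition
series whose quotients are C*-algebras of compact operators. -/

namespace Pool.Agent.Results.MP_76d3fb_an.FiniteCompositionSeries

open Filter Topology Set BGC BGC.Stmt

/-- Every complex Banach space isometric to a subspace of a C*-algebra with a finite composition
series whose quotients are C*-algebras of compact operators has weak fpp for every left reversible
semitopological semigroup. -/
theorem result.{u, v, w, x} (E : Type u) [NormedAddCommGroup E] [NormedSpace ℂ E] [CompleteSpace E]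
    (A : Type v) [NonUnitalCStarAlgebra A] (hA : FiniteCompactSeries.{w} A) (J : E →ₗᵢ[ℂ] A) :
    WeakFPPLeftReversible.{x} E := by
  intro S _ _ _ hrev K hne hc hw act hmul _ hcont hnon
  exact main_series hA J S hrev K hne hc hw act hmul hnon hcont

end Pool.Agent.Results.MP_76d3fb_an.FiniteCompositionSeries
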